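import Mathlib

namespace Pool.Agent.Results.MP_6b0309_co.Grid

open Finset MeasureTheory

/-- grid point -/
noncomputable def pt (p : ℕ × ℕ) : ℝ × ℝ := ((p.1 : ℝ) / 199, (p.2 : ℝ) / 199)

theorem pt_inj : Function.Injective pt := by
  rintro ⟨a, b⟩ ⟨c, d⟩ h
  simp only [pt, Prod.mk.injEq] at h
  have h1 : (a : ℝ) = c := by linarith [h.1]
  have h2 : (b : ℝ) = d := by linarith [h.2]
  simp [Nat.cast_injective h1, Nat.cast_injective h2]

theorem strip (K : Set (ℝ × ℝ)) (hK : Convex ℝ K) (hm : MeasurableSet K) (a b j x h : ℕ)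
    (hab : a ≤ b) (hj : j + 5 ≤ h) (h1 : pt (a, j) ∈ K) (h2 : pt (b, j) ∈ K) (h3 : pt (x, h) ∈ K) :
    ENNReal.ofReal (4 / 5 * ((b : ℝ) - a) / 199 / 199) ≤
      volume (K ∩ {p | p.2 ∈ Set.Ico ((j : ℝ) / 199) ((j + 1) / 199)}) := by
  have hm2 : MeasurableSet (K ∩ {p : ℝ × ℝ | p.2 ∈ Set.Ico ((j : ℝ) / 199) ((j + 1) / 199)}) :=
    hm.inter (measurable_snd measurableSet_Ico)
  have hab' : (a : ℝ) ≤ b := by exact_mod_cast hab
  have hj' : (j : ℝ) + 5 ≤ h := by exact_mod_cast hj
  rw [Measure.volume_eq_prod, Measure.prod_apply_symm hm2]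
  calc _ = ∫⁻ y, (Set.Ico ((j : ℝ) / 199) ((j + 1) / 199)).indicator
            (fun _ => ENNReal.ofReal (4 / 5 * ((b : ℝ) - a) / 199)) y := by
        rw [lintegral_indicator_const measurableSet_Ico, Real.volume_Ico,
          ← ENNReal.ofReal_mul (by positivity)]
        congr 1
        ring
    _ ≤ _ := by
        refine lintegral_mono fun y => ?_
        by_cases hy : y ∈ Set.Ico ((j : ℝ) / 199) ((j + 1) / 199)
        · rw [Set.indicator_of_mem hy]
          obtain ⟨y1, y2⟩ := hy
          set t : ℝ := (199 * y - j) / (h - j) with ht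
          have hpos : (0 : ℝ) < h - j := by linarith
          have t0 : 0 ≤ t := div_nonneg (by linarith) hpos.le
          have t1 : t ≤ 1 / 5 := by
            rw [ht, div_le_iff₀ hpos]; linarith
          have hy' : (1 - t) * ((j : ℝ) / 199) + t * (h / 199) = y := by
            rw [ht]; field_simp; ring
          have q1 := hK h1 h3 (show 0 ≤ 1 - t by linarith) t0 (by ring)
          have q2 := hK h2 h3 (show 0 ≤ 1 - t by linarith) t0 (by ring)
          simp only [pt, Prod.smul_mk, smul_eq_mul, Prod.mk_add_mk, hy'] at q1 q2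
          have sub : Set.Icc ((1 - t) * ((a : ℝ) / 199) + t * (x / 199))
              ((1 - t) * ((b : ℝ) / 199) + t * (x / 199)) ⊆
              (fun u => (u, y)) ⁻¹' (K ∩ {p : ℝ × ℝ | p.2 ∈ Set.Ico ((j : ℝ) / 199) ((j + 1) / 199)}) := by
            intro u hu
            refine ⟨?_, y1, y2⟩
            rw [← segment_eq_Icc (hu.1.trans hu.2)] at hu
            obtain ⟨s, r, hs, hr, hsr, rfl⟩ := hu
            have := hK q1 q2 hs hr hsr
            simp only [Prod.smul_mk, smul_eq_mul, Prod.mk_add_mk] at this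
            rw [← add_mul, hsr, one_mul] at this
            exact this
          refine le_trans ?_ (measure_mono sub)
          rw [Real.volume_Icc]
          apply ENNReal.ofReal_le_ofReal
          nlinarith
        · rw [Set.indicator_of_notMem hy]
          exact zero_le

theorem bound (T : Finset (ℕ × ℕ)) (hT : ∀ p ∈ T, p.1 < 200 ∧ p.2 < 200) (hc : T.card = 4001) :
    ENNReal.ofReal (1 / 18) < volume (convexHull ℝ (T.image pt : Set (ℝ × ℝ))) := by
  set K := convexHull ℝ (T.image pt : Set (ℝ × ℝ)) with hKdef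
  have hK : Convex ℝ K := convex_convexHull ℝ _
  have hm : MeasurableSet K :=
    ((Finset.finite_toSet _).isCompact_convexHull ℝ).isClosed.measurableSet
  have mem : ∀ p ∈ T, pt p ∈ K := fun p hp =>
    subset_convexHull ℝ _ (mem_coe.2 (mem_image_of_mem _ hp))
  obtain ⟨⟨x, h⟩, hxh, hmax⟩ := exists_max_image T Prod.snd (card_pos.1 (by omega))
  let row : ℕ → Finset (ℕ × ℕ) := fun j => T.filter (·.2 = j)
  have rowle : ∀ j, (row j).card ≤ 200 := by
    intro j
    calc _ ≤ ((range 200).image fun i => (i, j)).card := by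
          apply card_le_card
          rintro ⟨a, b⟩ hp
          obtain ⟨h1, h2⟩ := mem_filter.1 hp
          exact mem_image.2 ⟨a, mem_range.2 (hT _ h1).1, by simp [← h2]⟩
      _ ≤ 200 := card_image_le.trans (card_range 200).le
  have hh : h < 200 := (hT _ hxh).2
  have hrow : ∀ j ∈ range (h - 4), ENNReal.ofReal (4 / 5 * (((row j).card : ℝ) - 1) / 199 / 199) ≤
      volume (K ∩ {p | p.2 ∈ Set.Ico ((j : ℝ) / 199) ((j + 1) / 199)}) := by
    intro j hj
    rcases (row j).eq_empty_or_nonempty with he | hne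
    · rw [he, ENNReal.ofReal_of_nonpos (by norm_num)]
      exact zero_le
    · obtain ⟨⟨a, ja⟩, ha, hmin⟩ := exists_min_image (row j) Prod.fst hne
      obtain ⟨⟨b, jb⟩, hb, hmx⟩ := exists_max_image (row j) Prod.fst hne
      obtain ⟨ha1, ha2⟩ := mem_filter.1 ha
      obtain ⟨hb1, hb2⟩ := mem_filter.1 hb
      simp only at ha2 hb2
      subst ha2
      subst hb2
      have hab : a ≤ b := hmin _ hb
      refine le_trans (ENNReal.ofReal_le_ofReal ?_) (strip K hK hm a b jb x h hab
        (by have := mem_range.1 hj; omega) (mem _ ha1) (mem _ hb1) (mem _ hxh))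
      have : (row jb).card ≤ b + 1 - a := by
        calc _ ≤ ((Icc a b).image fun i => (i, jb)).card := by
              apply card_le_card
              rintro ⟨u, v⟩ hp
              exact mem_image.2 ⟨u, mem_Icc.2 ⟨hmin _ hp, hmx _ hp⟩,
                by simp [← (mem_filter.1 hp).2]⟩
          _ ≤ _ := card_image_le.trans (by simp)
      have h2 : ((row jb).card : ℝ) + a ≤ b + 1 := by exact_mod_cast (by omega)
      linarith
  have hsum : 3001 ≤ ∑ j ∈ range (h - 4), (row j).card := by
    have e : T.card = ∑ j ∈ range (h + 1), (row j).card :=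
      card_eq_sum_card_fiberwise (f := Prod.snd) fun p hp =>
        mem_coe.2 (mem_range.2 (Nat.lt_succ_of_le (hmax p hp)))
    rw [← sum_range_add_sum_Ico _ (show h - 4 ≤ h + 1 by omega)] at e
    have : ∑ j ∈ Ico (h - 4) (h + 1), (row j).card ≤ (Ico (h - 4) (h + 1)).card • 200 :=
      sum_le_card_nsmul _ _ _ fun j _ => rowle j
    rw [Nat.card_Ico, smul_eq_mul] at this
    omega
  calc ENNReal.ofReal (1 / 18)
      < ENNReal.ofReal (∑ j ∈ range (h - 4), 4 / 5 * (((row j).card : ℝ) - 1) / 199 / 199) := by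
        have h1 : (3001 : ℝ) ≤ ∑ j ∈ range (h - 4), ((row j).card : ℝ) := by exact_mod_cast hsum
        have h2 : ((h - 4 : ℕ) : ℝ) ≤ 195 := by exact_mod_cast (by omega)
        have e : ∑ j ∈ range (h - 4), 4 / 5 * (((row j).card : ℝ) - 1) / 199 / 199 =
            4 / 5 * ((∑ j ∈ range (h - 4), ((row j).card : ℝ)) - (h - 4 : ℕ)) / 199 / 199 := by
          rw [← sum_div, ← sum_div, ← mul_sum, sum_sub_distrib]
          simp
        rw [e, ENNReal.ofReal_lt_ofReal_iff (by linarith)]
        linarith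
    _ ≤ ∑ j ∈ range (h - 4), ENNReal.ofReal (4 / 5 * (((row j).card : ℝ) - 1) / 199 / 199) := by
        induction' range (h - 4) using Finset.induction_on with j s hj ih
        · simp
        · rw [sum_insert hj, sum_insert hj]
          exact ENNReal.ofReal_add_le.trans (add_le_add le_rfl ih)
    _ ≤ ∑ j ∈ range (h - 4),
          volume (K ∩ {p | p.2 ∈ Set.Ico ((j : ℝ) / 199) ((j + 1) / 199)}) := sum_le_sum hrow
    _ = volume (⋃ j ∈ range (h - 4),
          K ∩ {p | p.2 ∈ Set.Ico ((j : ℝ) / 199) ((j + 1) / 199)}) := by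
        symm
        apply measure_biUnion_finset
        · intro i _ j _ hij
          refine Set.disjoint_left.2 ?_
          rintro p ⟨_, h1, h2⟩ ⟨_, h3, h4⟩
          apply hij
          have a : (i : ℝ) < j + 1 := by linarith
          have b : (j : ℝ) < i + 1 := by linarith
          have a' : i < j + 1 := by exact_mod_cast a
          have b' : j < i + 1 := by exact_mod_cast b
          omega
        · exact fun j _ => hm.inter (measurable_snd measurableSet_Ico)
    _ ≤ volume K := measure_mono (Set.iUnion₂_subset fun j _ => Set.inter_subset_left)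

theorem result :
    ∃ (k a : ℕ) (d : ℝ) (P : Finset (ℝ × ℝ)), 3 ≤ a ∧ a ≤ k - 1 ∧ 0 < d ∧ d ≤ 1 ∧
      (P : Set (ℝ × ℝ)) ⊆ Set.Icc 0 d ×ˢ Set.Icc 0 d⁻¹ ∧ P.card = a * (k - 1) ∧
      ∀ S ⊆ P, S.card = k →
        ENNReal.ofReal (1 / (2 * ((a : ℝ) - 1))) < volume (convexHull ℝ (S : Set (ℝ × ℝ))) := by
  classical
  obtain ⟨R, hR, hR2⟩ : ∃ R : Finset ℕ, (∀ a ∈ R, a < 200) ∧ R.card = 200 :=
    ⟨range 200, fun _ => mem_range.1, card_range _⟩
  refine ⟨4001, 10, 1, (R ×ˢ R).image pt, by norm_num, by norm_num, one_pos,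
    le_rfl, ?_, ?_, ?_⟩
  · intro p hp
    obtain ⟨⟨a, b⟩, hq, rfl⟩ := mem_image.1 (mem_coe.1 hp)
    obtain ⟨h1, h2⟩ := mem_product.1 hq
    have a1 : (a : ℝ) ≤ 199 := by exact_mod_cast Nat.lt_succ_iff.1 (hR _ h1)
    have b1 : (b : ℝ) ≤ 199 := by exact_mod_cast Nat.lt_succ_iff.1 (hR _ h2)
    simp only [pt, inv_one, Set.mem_prod, Set.mem_Icc]
    refine ⟨⟨by positivity, by linarith⟩, by positivity, by linarith⟩
  · rw [card_image_of_injective _ pt_inj, card_product, hR2]
  · intro S hS hc
    obtain ⟨T, hT, rfl⟩ := subset_image_iff.1 hS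
    rw [card_image_of_injective _ pt_inj] at hc
    have := bound T (fun p hp => ⟨hR _ (mem_product.1 (hT hp)).1, hR _ (mem_product.1 (hT hp)).2⟩) hc
    convert this using 3
    norm_num

end Pool.Agent.Results.MP_6b0309_co.Grid
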